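import Pool.Agent.Helper2.SW.Main

/-!
# A supercompact cardinal and a `Σ₁(ω₂)`-definable well-order of the reals

If there is a supercompact cardinal then there is a countable transitive model of ZFC with a
supercompact cardinal in which the reals have a well-order which is defined by a `Σ₁` formula with
the parameter `ω₂`. The formula does not depend on the model.
-/

set_option autoImplicit false

namespace Pool.Agent.Results.MP_05233d_lc.SigmaOneWellOrder

open Pool.Agent.Helper23.XB Pool.Agent.Helper63.WR
open Pool.Agent.Helper87.Sym (Fml)

/-- **Positive answer to Q1**, from a supercompact cardinal. All free variables of the formula `φ`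
are among the first three, which stand for `x`, `y` and `ω₂`. -/
theorem result : ∃ φ : Fml, IsSigma1 φ ∧ φ.bd ≤ 3 ∧ ((∃ κ : Cardinal.{0}, Supercompact κ) →
    ∃ M : Set ZFSet.{0}, M.Countable ∧ Pool.Agent.Helper32.HB.IsTransModelZFC M ∧
      (∃ k, Pool.Agent.Helper23.SC.IsSupercompactIn M k) ∧
      ∃ w2, IsOmega2In M w2 ∧ DefinesWellOrder φ M w2) :=
  Pool.Agent.Helper2.SW.main

end Pool.Agent.Results.MP_05233d_lc.SigmaOneWellOrder
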